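import Mathlib
import Pool.Agent.W803.CM.Theta
import Pool.Agent.W192.CM.Parts2

/-!
# The theta relation, weight `2m - 1`
-/

set_option autoImplicit false

open Complex Filter Topology Set Pool.Agent.W192.CM Pool.Agent.W803.CM

namespace Pool.Agent.W400.CM

variable {R : Subring ℂ} {φ κ : R}

theorem summ_theta_n (h3 : D_POIS) {ω : ℂ} (hR : CMRing R ω) (n : ℕ) (c : ℝ) (hc : 0 < c) (t : ℝ)
    (ht : 0 < t) :
    Summable (fun α : R => ‖(α : ℂ)‖ ^ n * Real.exp (-(2 * Real.pi * Complex.normSq (α : ℂ) * t /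
      (2 * ω.im * c)))) := by
  have h := (h3 R ω hR n 0 (c / t) (div_pos hc ht)).2.1
  rw [← summable_norm_iff] at h
  refine h.congr fun α => ?_
  rw [norm_mul, norm_mul, norm_ez, norm_pow, RCLike.norm_conj, mul_one, Complex.norm_real,
    Real.norm_eq_abs, abs_of_pos (Real.exp_pos _)]
  congr 3
  have h0 := hR.im.ne'
  have h1 := hc.ne'
  have h2 := ht.ne'
  field_simp

theorem inner_eq_n (h3 : D_POIS) {ω : ℂ} (hR : CMRing R ω) (hφ : φ ≠ 0) (hκ : κ ≠ 0) (n : ℕ)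
    (ε : MulChar (Aq R φ) ℂ) (χ : MulChar (Aq R κ) ℂ) (t : ℝ) (ht : 0 < t)
    (p : Aq R φ × Aq R κ) :
    Summable (fun β : R => (starRingEnd ℂ) (β : ℂ) ^ n *
        (ez ω (((Quotient.out p.1 : R) : ℂ) * (β : ℂ) / (φ : ℂ)) *
          ez ω (((Quotient.out p.2 : R) : ℂ) * (β : ℂ) / (κ : ℂ))) *
        (Real.exp (-(2 * Real.pi * Complex.normSq (β : ℂ) /
          (2 * ω.im * ‖(φ : ℂ) * (κ : ℂ)‖)) * t) : ℂ)) ∧
    ∑' c : R, ev ε (em φ κ (p, c)) * ev χ (em φ κ (p, c)) * ((em φ κ (p, c) : R) : ℂ) ^ n *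
      (Real.exp (-(2 * Real.pi * Complex.normSq ((em φ κ (p, c) : R) : ℂ) /
        (2 * ω.im * ‖(φ : ℂ) * (κ : ℂ)‖)) / t) : ℂ) =
      (ε p.1 * ev ε κ * (χ p.2 * ev χ φ)) * (((φ : ℂ) * (κ : ℂ)) ^ n * ((t : ℂ) ^ (n + 1) /
        (‖(φ : ℂ) * (κ : ℂ)‖ : ℂ) ^ (n + 1))) *
      ∑' β : R, (starRingEnd ℂ) (β : ℂ) ^ n *
        (ez ω (((Quotient.out p.1 : R) : ℂ) * (β : ℂ) / (φ : ℂ)) *
          ez ω (((Quotient.out p.2 : R) : ℂ) * (β : ℂ) / (κ : ℂ))) *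
        (Real.exp (-(2 * Real.pi * Complex.normSq (β : ℂ) /
          (2 * ω.im * ‖(φ : ℂ) * (κ : ℂ)‖)) * t) : ℂ) := by
  have hφ' : (φ : ℂ) ≠ 0 := by simpa using hφ
  have hκ' : (κ : ℂ) ≠ 0 := by simpa using hκ
  have hm0 : (φ : ℂ) * (κ : ℂ) ≠ 0 := mul_ne_zero hφ' hκ'
  set μ : ℂ := (φ : ℂ) * (κ : ℂ) with hμ
  have hm : 0 < ‖μ‖ := norm_pos_iff.2 hm0
  have hT : 0 < ‖μ‖ / t := div_pos hm ht
  set z0 : ℂ := ((rp φ κ p : R) : ℂ) / μ with hz0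
  obtain ⟨_, hs2, hs3⟩ := h3 R ω hR n z0 (‖μ‖ / t) hT
  have hi := hR.im.ne'
  have hm' := hm.ne'
  have ht' := ht.ne'
  have hez : ∀ β : R, ez ω (z0 * (β : ℂ)) =
      ez ω (((Quotient.out p.1 : R) : ℂ) * (β : ℂ) / (φ : ℂ)) *
        ez ω (((Quotient.out p.2 : R) : ℂ) * (β : ℂ) / (κ : ℂ)) := by
    intro β
    rw [← ez_add]
    congr 1
    rw [hz0, hμ]
    unfold rp
    push_cast
    field_simp
  have hex : ∀ β : R, (Real.exp (-(2 * Real.pi * Complex.normSq (β : ℂ) /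
      (2 * ω.im * (‖μ‖ / t)))) : ℂ) =
      (Real.exp (-(2 * Real.pi * Complex.normSq (β : ℂ) / (2 * ω.im * ‖μ‖)) * t) : ℂ) := by
    intro β
    congr 2
    field_simp
  have hfun : (fun β : R => ((starRingEnd ℂ) (β : ℂ)) ^ n * ez ω (z0 * (β : ℂ)) *
      (Real.exp (-(2 * Real.pi * Complex.normSq (β : ℂ) / (2 * ω.im * (‖μ‖ / t)))) : ℂ)) =
      fun β : R => (starRingEnd ℂ) (β : ℂ) ^ n *
        (ez ω (((Quotient.out p.1 : R) : ℂ) * (β : ℂ) / (φ : ℂ)) *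
          ez ω (((Quotient.out p.2 : R) : ℂ) * (β : ℂ) / (κ : ℂ))) *
        (Real.exp (-(2 * Real.pi * Complex.normSq (β : ℂ) / (2 * ω.im * ‖μ‖)) * t) : ℂ) := by
    funext β
    rw [hez, hex]
  rw [hfun] at hs2 hs3
  refine ⟨hs2, ?_⟩
  have hL : ∀ c : R, ev ε (em φ κ (p, c)) * ev χ (em φ κ (p, c)) *
      ((em φ κ (p, c) : R) : ℂ) ^ n *
      (Real.exp (-(2 * Real.pi * Complex.normSq ((em φ κ (p, c) : R) : ℂ) /
        (2 * ω.im * ‖μ‖)) / t) : ℂ) =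
      (ε p.1 * ev ε κ * (χ p.2 * ev χ φ) * μ ^ n) * (((c : ℂ) + z0) ^ n *
        (Real.exp (-(2 * Real.pi * (‖μ‖ / t) * Complex.normSq ((c : ℂ) + z0) /
          (2 * ω.im))) : ℂ)) := by
    intro c
    have h1 : ((em φ κ (p, c) : R) : ℂ) = μ * ((c : ℂ) + z0) := by
      unfold Pool.Agent.W803.CM.em
      push_cast
      rw [hz0, mul_add, mul_div_cancel₀ _ hm0]
    rw [ev_e, ev_x, h1, Complex.normSq_mul, mul_pow]
    have h2 : Complex.normSq μ = ‖μ‖ ^ 2 := Complex.normSq_eq_norm_sq μ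
    have h3' : -(2 * Real.pi * (Complex.normSq μ * Complex.normSq ((c : ℂ) + z0)) /
        (2 * ω.im * ‖μ‖)) / t = -(2 * Real.pi * (‖μ‖ / t) * Complex.normSq ((c : ℂ) + z0) /
          (2 * ω.im)) := by
      rw [h2]
      field_simp
    rw [h3']
    ring
  simp only [hL]
  rw [tsum_mul_left, hs3]
  have h4 : (‖μ‖ : ℂ) ≠ 0 := by exact_mod_cast hm'
  have h5 : (t : ℂ) ≠ 0 := by exact_mod_cast ht'
  rw [← mul_assoc]
  congr 1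
  rw [mul_assoc]
  congr 1
  congr 1
  push_cast
  rw [div_pow, one_div_div]

theorem alg_n (n : ℕ) (e x p k t N K b X ge gx ce cx : ℂ) (hN : N ≠ 0) (hK : K ≠ 0) :
    (e * x * (p * k * (t / (N ^ (n + 1) * K ^ (n + 1)))) * (b * X)) * ((ce * ge) * (cx * gx)) =
      ((p * ge / N ^ (n + 1)) * (e * k / K ^ n) * (x * gx / K)) * t * (ce * cx * b * X) := by
  rw [pow_succ K n]
  have h1 : K ^ n ≠ 0 := pow_ne_zero _ hK
  have h2 : N ^ (n + 1) ≠ 0 := pow_ne_zero _ hN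
  generalize N ^ (n + 1) = N' at *
  generalize K ^ n = K' at *
  field_simp

theorem theta_n (h2 : C_GAUSS) (h3 : D_POIS) (R : Subring ℂ) (ω : ℂ) (hR : CMRing R ω)
    (φ κ : R) [Finite (Aq R φ)] [Finite (Aq R κ)] (n : ℕ) (ε : MulChar (Aq R φ) ℂ)
    (χ : MulChar (Aq R κ) ℂ) (hne : φ ≠ 0) (hne' : κ ≠ 0) (hcop : IsCoprime φ κ) (hprim : Prim ε)
    (hprim' : Prim χ) (t : ℝ) (ht : 0 < t) :
    ∑' α : R, ev ε α * ev χ α * (α : ℂ) ^ n *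
      (Real.exp (-(2 * Real.pi * Complex.normSq (α : ℂ) / (2 * ω.im * ‖(φ : ℂ) * (κ : ℂ)‖)) / t) : ℂ)
    = (((φ : ℂ) ^ n * gs ω φ ε / (‖(φ : ℂ)‖ : ℂ) ^ (n + 1)) *
      (ev ε κ * (κ : ℂ) ^ n / (‖(κ : ℂ)‖ : ℂ) ^ n) *
      (ev χ φ * gs ω κ χ / (‖(κ : ℂ)‖ : ℂ))) * (t : ℂ) ^ (n + 1) *
      ∑' α : R, (starRingEnd ℂ) (ev ε α * ev χ α * (α : ℂ) ^ n) *
      (Real.exp (-(2 * Real.pi * Complex.normSq (α : ℂ) / (2 * ω.im * ‖(φ : ℂ) * (κ : ℂ)‖)) * t) : ℂ)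
    := by
  have hφ' : (φ : ℂ) ≠ 0 := by simpa using hne
  have hκ' : (κ : ℂ) ≠ 0 := by simpa using hne'
  have hm0 : (φ : ℂ) * (κ : ℂ) ≠ 0 := mul_ne_zero hφ' hκ'
  have hm : 0 < ‖(φ : ℂ) * (κ : ℂ)‖ := norm_pos_iff.2 hm0
  obtain ⟨g1, g2⟩ := h2 R ω hR φ hne ε hprim
  obtain ⟨g3, g4⟩ := h2 R ω hR κ hne' χ hprim'
  have : Fintype (Aq R φ) := Fintype.ofFinite _
  have : Fintype (Aq R κ) := Fintype.ofFinite _
  -- summability of the left side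
  have hsum : Summable (fun α : R => ev ε α * ev χ α * (α : ℂ) ^ n *
      (Real.exp (-(2 * Real.pi * Complex.normSq (α : ℂ) /
        (2 * ω.im * ‖(φ : ℂ) * (κ : ℂ)‖)) / t) : ℂ)) := by
    have hs := summ_theta_n (R := R) h3 hR n _ hm (1 / t) (by positivity)
    obtain ⟨B1, hB1⟩ : ∃ B, ∀ x : Aq R φ, ‖ε x‖ ≤ B :=
      ⟨∑ x, ‖ε x‖, fun x => Finset.single_le_sum (f := fun x => ‖ε x‖)
        (fun _ _ => norm_nonneg _) (Finset.mem_univ x)⟩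
    obtain ⟨B2, hB2⟩ : ∃ B, ∀ x : Aq R κ, ‖χ x‖ ≤ B :=
      ⟨∑ x, ‖χ x‖, fun x => Finset.single_le_sum (f := fun x => ‖χ x‖)
        (fun _ _ => norm_nonneg _) (Finset.mem_univ x)⟩
    refine Summable.of_norm_bounded (hs.mul_left (B1 * B2)) fun α => ?_
    rw [norm_mul, norm_mul, norm_mul, norm_pow, Complex.norm_real, Real.norm_eq_abs,
      abs_of_pos (Real.exp_pos _)]
    have hexp : -(2 * Real.pi * Complex.normSq (α : ℂ) /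
        (2 * ω.im * ‖(φ : ℂ) * (κ : ℂ)‖)) / t =
        -(2 * Real.pi * Complex.normSq (α : ℂ) * (1 / t) /
          (2 * ω.im * ‖(φ : ℂ) * (κ : ℂ)‖)) := by ring
    rw [hexp, mul_assoc]
    refine mul_le_mul_of_nonneg_right ?_ (by positivity)
    exact mul_le_mul (hB1 _) (hB2 _) (norm_nonneg _) ((norm_nonneg _).trans (hB1 0))
  let E : (Aq R φ × Aq R κ) × R ≃ R := Equiv.ofBijective (em φ κ) (em_bij hne hne' hcop)
  rw [← E.tsum_eq]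
  have hsum' : Summable (fun p : (Aq R φ × Aq R κ) × R => ev ε (E p) * ev χ (E p) *
      ((E p : R) : ℂ) ^ n * (Real.exp (-(2 * Real.pi * Complex.normSq ((E p : R) : ℂ) /
        (2 * ω.im * ‖(φ : ℂ) * (κ : ℂ)‖)) / t) : ℂ)) := E.summable_iff.2 hsum
  rw [Summable.tsum_prod hsum', tsum_fintype]
  have hin : ∀ p : Aq R φ × Aq R κ, ∑' c : R, ev ε (E (p, c)) * ev χ (E (p, c)) *
      ((E (p, c) : R) : ℂ) ^ n * (Real.exp (-(2 * Real.pi * Complex.normSq ((E (p, c) : R) : ℂ) /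
      (2 * ω.im * ‖(φ : ℂ) * (κ : ℂ)‖)) / t) : ℂ) = _ :=
    fun p => (inner_eq_n h3 hR hne hne' n ε χ t ht p).2
  rw [Finset.sum_congr rfl fun p _ => hin p]
  simp only [← tsum_mul_left]
  rw [← Summable.tsum_finsetSum fun p _ =>
    ((inner_eq_n h3 hR hne hne' n ε χ t ht p).1.mul_left _)]
  refine tsum_congr fun β => ?_
  have q2 := g2 β
  have q4 := g4 β
  rw [finsum_eq_sum_of_fintype] at q2 q4
  have hcj : (starRingEnd ℂ) (ev ε β * ev χ β * (β : ℂ) ^ n) =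
      (starRingEnd ℂ) (ev ε β) * (starRingEnd ℂ) (ev χ β) * (starRingEnd ℂ) (β : ℂ) ^ n := by
    rw [map_mul, map_mul, map_pow]
  rw [hcj]
  have hN : (‖(φ : ℂ) * (κ : ℂ)‖ : ℂ) ^ (n + 1) =
      (‖(φ : ℂ)‖ : ℂ) ^ (n + 1) * (‖(κ : ℂ)‖ : ℂ) ^ (n + 1) := by
    rw [norm_mul]
    push_cast
    rw [mul_pow]
  have hN1 : (‖(φ : ℂ)‖ : ℂ) ≠ 0 := by exact_mod_cast (norm_pos_iff.2 hφ').ne'
  have hN2 : (‖(κ : ℂ)‖ : ℂ) ≠ 0 := by exact_mod_cast (norm_pos_iff.2 hκ').ne'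
  set X : ℂ := (Real.exp (-(2 * Real.pi * Complex.normSq (β : ℂ) /
        (2 * ω.im * ‖(φ : ℂ) * (κ : ℂ)‖)) * t) : ℂ) with hX
  calc ∑ p : Aq R φ × Aq R κ, (ε p.1 * ev ε κ * (χ p.2 * ev χ φ)) *
        (((φ : ℂ) * (κ : ℂ)) ^ n * ((t : ℂ) ^ (n + 1) / (‖(φ : ℂ) * (κ : ℂ)‖ : ℂ) ^ (n + 1))) *
        ((starRingEnd ℂ) (β : ℂ) ^ n *
          (ez ω (((Quotient.out p.1 : R) : ℂ) * (β : ℂ) / (φ : ℂ)) *
            ez ω (((Quotient.out p.2 : R) : ℂ) * (β : ℂ) / (κ : ℂ))) * X)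
      = (ev ε κ * ev χ φ * ((φ : ℂ) ^ n * (κ : ℂ) ^ n * ((t : ℂ) ^ (n + 1) /
          (‖(φ : ℂ) * (κ : ℂ)‖ : ℂ) ^ (n + 1))) * ((starRingEnd ℂ) (β : ℂ) ^ n * X)) *
        ((∑ x : Aq R φ, ε x * ez ω (((Quotient.out x : R) : ℂ) * (β : ℂ) / (φ : ℂ))) *
          ∑ y : Aq R κ, χ y * ez ω (((Quotient.out y : R) : ℂ) * (β : ℂ) / (κ : ℂ))) := by
        rw [Finset.sum_mul_sum, ← Finset.univ_product_univ, Finset.sum_product, Finset.mul_sum]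
        refine Finset.sum_congr rfl fun x _ => ?_
        rw [Finset.mul_sum]
        refine Finset.sum_congr rfl fun y _ => ?_
        rw [mul_pow]
        ring
    _ = _ := by
        rw [q2, q4, hN]
        exact alg_n n _ _ _ _ _ _ _ _ _ _ _ _ _ hN1 hN2

theorem d_theta (_h1 : C_BASIC) (h2 : C_GAUSS) (h3 : D_POIS) : D_THETA := by
  intro R ω hR φ κ _ _ m ε χ hd t ht
  have hm : 2 * m = (2 * m - 1) + 1 := by have := hd.one; omega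
  have h := theta_n h2 h3 R ω hR φ κ (2 * m - 1) ε χ hd.ne hd.ne' hd.cop hd.prim hd.prim' t ht
  rw [← hm] at h
  exact h

end Pool.Agent.W400.CM
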